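import Mathlib

/-!
[EG Asy] Numerical facts for large `n`; `K = ∑_{i ≤ r} C(n-t, i) >= C(n-t, r)`. PROOF. `C(n-t,x) / n^x → 1 / x!` for every `x`
(Mathlib: `Nat.choose_le_pow_div`, `Nat.pow_le_choose` or `(n-t-x)^x / x! <= C(n-t,x) <= n^x / x!`). (a) `n K^2 >= n C(n-t,r)^2` is
of order `n^(2r+1)`. (b) after division by `n^(2r+2)` the left side tends to `1/(x! y!)`, which is less than `1/(r!)^2`, and the
right side is at least `C(n-t,r)^2 / n^(2r)`, which tends to `1/(r!)^2` (`x! y! > (r!)^2` for `x + y = 2r`, `x ≠ y`: the binomial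
coefficient `C(2r, x) < C(2r, r)`; Mathlib `Nat.choose_lt_centralBinom`-like or `Nat.factorial_mul_factorial_dvd..`, or directly).
(c) `C(N,r) >= (N/r)^r` with `N = n - t >= n/2`. (e) `C(n-t,r)` is of order `n^r`.
-/

set_option autoImplicit false

namespace Pool.Agent.H5.EG

open Filter Topology

private lemma h92_fact {r k : ℕ} (hk : 1 ≤ k) (hkr : k ≤ r) :
    r.factorial * r.factorial < (r - k).factorial * (r + k).factorial := by
  induction k, hk using Nat.le_induction with
  | base =>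
    obtain ⟨a, rfl⟩ : ∃ a, r = a + 1 := ⟨r - 1, by omega⟩
    rw [Nat.add_sub_cancel, Nat.factorial_succ (a + 1)]
    have h1 : 0 < a.factorial * (a + 1).factorial :=
      Nat.mul_pos (Nat.factorial_pos _) (Nat.factorial_pos _)
    calc (a + 1).factorial * (a + 1).factorial = (a + 1) * (a.factorial * (a + 1).factorial) := by
          rw [Nat.factorial_succ a]
          ring
      _ < (a + 1 + 1) * (a.factorial * (a + 1).factorial) :=
          Nat.mul_lt_mul_of_pos_right (by omega) h1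
      _ = a.factorial * ((a + 1 + 1) * (a + 1).factorial) := by ring
  | succ k hk ih =>
    refine (ih (by omega)).trans ?_
    obtain ⟨a, rfl⟩ : ∃ a, r = a + (k + 1) := ⟨r - (k + 1), by omega⟩
    have e1 : a + (k + 1) - k = a + 1 := by omega
    have e2 : a + (k + 1) - (k + 1) = a := by omega
    have e3 : a + (k + 1) + (k + 1) = (a + (k + 1) + k) + 1 := by omega
    rw [e1, e2, e3, Nat.factorial_succ a, Nat.factorial_succ (a + (k + 1) + k)]
    have h1 : 0 < a.factorial * (a + (k + 1) + k).factorial :=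
      Nat.mul_pos (Nat.factorial_pos _) (Nat.factorial_pos _)
    calc (a + 1) * a.factorial * (a + (k + 1) + k).factorial
        = (a + 1) * (a.factorial * (a + (k + 1) + k).factorial) := by ring
      _ < (a + (k + 1) + k + 1) * (a.factorial * (a + (k + 1) + k).factorial) :=
          Nat.mul_lt_mul_of_pos_right (by omega) h1
      _ = a.factorial * ((a + (k + 1) + k + 1) * (a + (k + 1) + k).factorial) := by ring

private lemma h92_fact2 {r x y : ℕ} (h : x + y = 2 * r) (hne : x ≠ y) :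
    r.factorial * r.factorial < x.factorial * y.factorial := by
  rcases lt_or_gt_of_ne hne with hlt | hlt
  · have h1 := h92_fact (r := r) (k := r - x) (by omega) (by omega)
    have e1 : r - (r - x) = x := by omega
    have e2 : r + (r - x) = y := by omega
    rwa [e1, e2] at h1
  · have h1 := h92_fact (r := r) (k := r - y) (by omega) (by omega)
    have e1 : r - (r - y) = y := by omega
    have e2 : r + (r - y) = x := by omega
    rw [e1, e2, mul_comm (y.factorial)] at h1
    exact h1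

private lemma h92_tend (t x : ℕ) : Tendsto (fun n : ℕ => ((n - t).choose x : ℝ) / (n : ℝ) ^ x)
    atTop (𝓝 (1 / (x.factorial : ℝ))) := by
  have h1 : Tendsto (fun N : ℕ => (N.choose x : ℝ) / (N : ℝ) ^ x) atTop
      (𝓝 (1 / (x.factorial : ℝ))) := by
    have h2 := (Asymptotics.isEquivalent_iff_tendsto_one (l := atTop)
      (u := fun n : ℕ => (n.choose x : ℝ)) (v := fun n : ℕ => ((n : ℝ) ^ x / x.factorial : ℝ))
      (by
        filter_upwards [eventually_gt_atTop 0] with n hn
        have : (0 : ℝ) < n := by exact_mod_cast hn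
        positivity)).mp (isEquivalent_choose x)
    have h3 := h2.mul_const (1 / (x.factorial : ℝ))
    rw [one_mul] at h3
    refine h3.congr' ?_
    filter_upwards [eventually_gt_atTop 0] with n hn
    have h4 : (0 : ℝ) < n := by exact_mod_cast hn
    have h5 : (0 : ℝ) < x.factorial := by exact_mod_cast x.factorial_pos
    simp only [Pi.div_apply]
    field_simp
  have h2 : Tendsto (fun n : ℕ => ((n - t : ℕ) : ℝ) / (n : ℝ)) atTop (𝓝 1) := by
    have h3 : Tendsto (fun n : ℕ => 1 - (t : ℝ) / (n : ℝ)) atTop (𝓝 (1 - 0)) :=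
      tendsto_const_nhds.sub (tendsto_const_div_atTop_nhds_zero_nat (t : ℝ))
    rw [sub_zero] at h3
    refine h3.congr' ?_
    filter_upwards [eventually_gt_atTop 0, eventually_ge_atTop t] with n hn hnt
    have h4 : (0 : ℝ) < n := by exact_mod_cast hn
    rw [Nat.cast_sub hnt, sub_div, div_self h4.ne']
  have h3 := (h1.comp (tendsto_sub_atTop_nat t)).mul (h2.pow x)
  rw [one_pow, mul_one] at h3
  refine h3.congr' ?_
  filter_upwards [eventually_gt_atTop t] with n hn
  have h4 : (0 : ℝ) < n := by exact_mod_cast (by omega : 0 < n)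
  have h5 : (0 : ℝ) < ((n - t : ℕ) : ℝ) := by exact_mod_cast (by omega : 0 < n - t)
  simp only [Function.comp_apply]
  rw [div_pow]
  field_simp

theorem asy (t r P : ℕ) (hr : 1 ≤ r) : ∃ n0 : ℕ, ∀ n : ℕ, n0 ≤ n →
    P * n ^ (2 * r) < n * (n - t).choose r ^ 2 ∧
    (∀ x y : ℕ, x + y = 2 * r → x ≠ y →
      (n * (n - t).choose x + P * n ^ x) * (n * (n - t).choose y + P * n ^ y) <
        n ^ 2 * (n - t).choose r ^ 2) ∧
    n ^ r ≤ (2 * r + 1) ^ r * (n - t).choose r ∧
    P * n ^ (r - 1) < (n - t).choose r := by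
  have hP : Tendsto (fun n : ℕ => (P : ℝ) / (n : ℝ)) atTop (𝓝 0) :=
    tendsto_const_div_atTop_nhds_zero_nat (P : ℝ)
  have hr0 : (0 : ℝ) < r.factorial := by exact_mod_cast r.factorial_pos
  have hc := h92_tend t r
  have h1 : ∀ᶠ n : ℕ in atTop, (P : ℝ) / n < (((n - t).choose r : ℝ) / (n : ℝ) ^ r) ^ 2 :=
    hP.eventually_lt (hc.pow 2) (by positivity)
  have h4 : ∀ᶠ n : ℕ in atTop, (P : ℝ) / n < ((n - t).choose r : ℝ) / (n : ℝ) ^ r :=
    hP.eventually_lt hc (by positivity)
  have h3 : ∀ᶠ n : ℕ in atTop, 1 / ((2 * r + 1 : ℝ) ^ r) < ((n - t).choose r : ℝ) / (n : ℝ) ^ r := by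
    refine hc.eventually_const_lt ?_
    have h5 : r.factorial < (2 * r + 1) ^ r :=
      lt_of_le_of_lt (Nat.factorial_le_pow r) (Nat.pow_lt_pow_left (by omega) (by omega))
    have h6 : (r.factorial : ℝ) < (2 * r + 1 : ℝ) ^ r := by exact_mod_cast h5
    exact one_div_lt_one_div_of_lt hr0 h6
  have h2 : ∀ᶠ n : ℕ in atTop, ∀ x ∈ Finset.range (2 * r + 1), x ≠ 2 * r - x →
      (((n - t).choose x : ℝ) / (n : ℝ) ^ x + (P : ℝ) / n) *
        (((n - t).choose (2 * r - x) : ℝ) / (n : ℝ) ^ (2 * r - x) + (P : ℝ) / n) <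
        (((n - t).choose r : ℝ) / (n : ℝ) ^ r) ^ 2 := by
    rw [Filter.eventually_all_finset]
    intro x hx
    rw [Finset.mem_range] at hx
    by_cases hne : x = 2 * r - x
    · exact Filter.Eventually.of_forall (fun n h => absurd hne h)
    · have h5 := ((h92_tend t x).add hP).mul ((h92_tend t (2 * r - x)).add hP)
      rw [add_zero, add_zero] at h5
      have h6 : 1 / (x.factorial : ℝ) * (1 / ((2 * r - x).factorial : ℝ)) <
          (1 / (r.factorial : ℝ)) ^ 2 := by
        have h7 := h92_fact2 (r := r) (x := x) (y := 2 * r - x) (by omega) hne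
        have h8 : (r.factorial : ℝ) * r.factorial < x.factorial * (2 * r - x).factorial := by
          exact_mod_cast h7
        rw [one_div_mul_one_div, one_div_pow, pow_two]
        exact one_div_lt_one_div_of_lt (by positivity) h8
      filter_upwards [h5.eventually_lt (hc.pow 2) h6] with n hn _
      exact hn
  obtain ⟨n0, hn0⟩ := Filter.eventually_atTop.mp ((h1.and h4).and (h3.and h2))
  refine ⟨n0 + 1, fun n hn => ?_⟩
  obtain ⟨⟨g1, g4⟩, g3, g2⟩ := hn0 n (by omega)
  have hn1 : (0 : ℝ) < n := by exact_mod_cast (by omega : 0 < n)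
  refine ⟨?_, ?_, ?_, ?_⟩
  · have h := mul_lt_mul_of_pos_right g1 (show (0 : ℝ) < (n : ℝ) ^ (2 * r + 1) by positivity)
    have e1 : (P : ℝ) / n * (n : ℝ) ^ (2 * r + 1) = P * (n : ℝ) ^ (2 * r) := by
      rw [pow_succ]
      field_simp
    have e2 : (((n - t).choose r : ℝ) / (n : ℝ) ^ r) ^ 2 * (n : ℝ) ^ (2 * r + 1) =
        n * ((n - t).choose r : ℝ) ^ 2 := by
      rw [show 2 * r + 1 = r * 2 + 1 by ring, pow_succ (n : ℝ) (r * 2), pow_mul, div_pow]
      field_simp
    rw [e1, e2] at h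
    exact_mod_cast h
  · intro x y hxy hne
    have hy : y = 2 * r - x := by omega
    have h := g2 x (Finset.mem_range.mpr (by omega)) (by omega)
    rw [← hy] at h
    have h' := mul_lt_mul_of_pos_right h (show (0 : ℝ) < (n : ℝ) ^ (x + 1) * (n : ℝ) ^ (y + 1) by positivity)
    have key : ∀ z : ℕ, (((n - t).choose z : ℝ) / (n : ℝ) ^ z + (P : ℝ) / n) * (n : ℝ) ^ (z + 1) =
        n * ((n - t).choose z : ℝ) + P * (n : ℝ) ^ z := by
      intro z
      rw [pow_succ]
      field_simp
    have e1 : (((n - t).choose x : ℝ) / (n : ℝ) ^ x + (P : ℝ) / n) *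
        (((n - t).choose y : ℝ) / (n : ℝ) ^ y + (P : ℝ) / n) *
          ((n : ℝ) ^ (x + 1) * (n : ℝ) ^ (y + 1)) =
        (n * ((n - t).choose x : ℝ) + P * (n : ℝ) ^ x) *
          (n * ((n - t).choose y : ℝ) + P * (n : ℝ) ^ y) := by
      rw [← key x, ← key y]
      ring
    have e2 : (((n - t).choose r : ℝ) / (n : ℝ) ^ r) ^ 2 *
        ((n : ℝ) ^ (x + 1) * (n : ℝ) ^ (y + 1)) = (n : ℝ) ^ 2 * ((n - t).choose r : ℝ) ^ 2 := by
      rw [← pow_add, show x + 1 + (y + 1) = r * 2 + 2 by omega, pow_add, pow_mul, div_pow]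
      field_simp
    rw [e1, e2] at h'
    exact_mod_cast h'
  · have h := mul_lt_mul_of_pos_right g3 (show (0 : ℝ) < (n : ℝ) ^ r * (2 * r + 1 : ℝ) ^ r by positivity)
    have e1 : 1 / ((2 * r + 1 : ℝ) ^ r) * ((n : ℝ) ^ r * (2 * r + 1 : ℝ) ^ r) = (n : ℝ) ^ r := by
      field_simp
    have e2 : ((n - t).choose r : ℝ) / (n : ℝ) ^ r * ((n : ℝ) ^ r * (2 * r + 1 : ℝ) ^ r) =
        (2 * r + 1 : ℝ) ^ r * ((n - t).choose r : ℝ) := by
      field_simp
    rw [e1, e2] at h
    have h' : ((n ^ r : ℕ) : ℝ) < (((2 * r + 1) ^ r * (n - t).choose r : ℕ) : ℝ) := by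
      push_cast
      exact h
    exact (by exact_mod_cast h' : n ^ r < (2 * r + 1) ^ r * (n - t).choose r).le
  · have h := mul_lt_mul_of_pos_right g4 (show (0 : ℝ) < (n : ℝ) ^ r by positivity)
    obtain ⟨s, rfl⟩ : ∃ s, r = s + 1 := ⟨r - 1, by omega⟩
    have e1 : (P : ℝ) / n * (n : ℝ) ^ (s + 1) = P * (n : ℝ) ^ s := by
      rw [pow_succ]
      field_simp
    have e2 : ((n - t).choose (s + 1) : ℝ) / (n : ℝ) ^ (s + 1) * (n : ℝ) ^ (s + 1) =
        ((n - t).choose (s + 1) : ℝ) := by
      field_simp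
    rw [e1, e2] at h
    rw [Nat.add_sub_cancel]
    exact_mod_cast h

end Pool.Agent.H5.EG
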