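import Mathlib

/-!
[EG Cov] PROOF. Claim by induction on `j`: for every `D` there is `𝒞` with `card ≤ (l+1)^j`, all members `tau`-covers, such that
every `tau`-cover `A ⊇ D` with `|A| ≤ |D| + j` contains a member. If `D` is a cover take `{D}`. If not, some `B ∈ G` has
`|D ∩ B| < tau`, so a cover `A ⊇ D` contains an `x ∈ B \ D`; `j = 0`: there is no such `A` (`A = D`), take `∅`; else take the union
over `x ∈ B \ D` of the families of `insert x D`, `j - 1`. Apply with `D = ∅`, `j = l`.
-/

set_option autoImplicit false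

namespace Pool.Agent.H5.EG

theorem h47_cov_aux (n l tau : ℕ) (G : Finset (Finset (Fin n))) (hG : ∀ B ∈ G, B.card ≤ l)
    (j : ℕ) : ∀ D : Finset (Fin n), ∃ C : Finset (Finset (Fin n)), C.card ≤ (l + 1) ^ j ∧
      (∀ E ∈ C, ∀ B ∈ G, tau ≤ (E ∩ B).card) ∧
      ∀ A : Finset (Fin n), D ⊆ A → A.card ≤ D.card + j → (∀ B ∈ G, tau ≤ (A ∩ B).card) →
        ∃ E ∈ C, E ⊆ A := by
  classical
  induction j with
  | zero =>
    intro D
    by_cases hD : ∀ B ∈ G, tau ≤ (D ∩ B).card
    · refine ⟨{D}, by simp, ?_, ?_⟩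
      · intro E hE
        rw [Finset.mem_singleton] at hE
        subst hE
        exact hD
      · intro A hA _ _
        exact ⟨D, by simp, hA⟩
    · refine ⟨∅, by simp, by simp, ?_⟩
      intro A hDA hA hc
      have hEq : D = A := Finset.eq_of_subset_of_card_le hDA (by simpa using hA)
      subst hEq
      exact absurd hc hD
  | succ j ih =>
    intro D
    by_cases hD : ∀ B ∈ G, tau ≤ (D ∩ B).card
    · refine ⟨{D}, ?_, ?_, ?_⟩
      · rw [Finset.card_singleton]
        exact Nat.one_le_pow _ _ (Nat.succ_pos l)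
      · intro E hE
        rw [Finset.mem_singleton] at hE
        subst hE
        exact hD
      · intro A hA _ _
        exact ⟨D, by simp, hA⟩
    · push Not at hD
      obtain ⟨B, hB, hlt⟩ := hD
      choose C h1 h2 h3 using ih
      refine ⟨(B \ D).biUnion (fun x => C (insert x D)), ?_, ?_, ?_⟩
      · calc ((B \ D).biUnion (fun x => C (insert x D))).card
            ≤ ∑ x ∈ B \ D, (C (insert x D)).card := Finset.card_biUnion_le
          _ ≤ ∑ _x ∈ B \ D, (l + 1) ^ j := Finset.sum_le_sum (fun x _ => h1 _)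
          _ = (B \ D).card * (l + 1) ^ j := by rw [Finset.sum_const, smul_eq_mul]
          _ ≤ (l + 1) * (l + 1) ^ j := Nat.mul_le_mul_right _
              ((Finset.card_le_card Finset.sdiff_subset).trans ((hG B hB).trans (Nat.le_succ l)))
          _ = (l + 1) ^ (j + 1) := by ring
      · intro E hE
        rw [Finset.mem_biUnion] at hE
        obtain ⟨x, _, hx⟩ := hE
        exact h2 _ E hx
      · intro A hDA hA hc
        have hex : ∃ x ∈ A ∩ B, x ∉ D := by
          by_contra hcon
          push Not at hcon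
          have hsub : A ∩ B ⊆ D ∩ B :=
            fun x hx => Finset.mem_inter.2 ⟨hcon x hx, (Finset.mem_inter.1 hx).2⟩
          exact absurd ((hc B hB).trans (Finset.card_le_card hsub)) (not_le.2 hlt)
        obtain ⟨x, hx, hxD⟩ := hex
        rw [Finset.mem_inter] at hx
        obtain ⟨E, hE, hEA⟩ := h3 (insert x D) A (Finset.insert_subset hx.1 hDA)
          (by rw [Finset.card_insert_of_notMem hxD]; omega) hc
        exact ⟨E, Finset.mem_biUnion.2 ⟨x, Finset.mem_sdiff.2 ⟨hx.2, hxD⟩, hE⟩, hEA⟩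

theorem cov (n l tau : ℕ) (G : Finset (Finset (Fin n))) (hG : ∀ B ∈ G, B.card ≤ l) :
    ∃ C : Finset (Finset (Fin n)), C.card ≤ (l + 1) ^ l ∧ (∀ D ∈ C, ∀ B ∈ G, tau ≤ (D ∩ B).card) ∧
      ∀ A : Finset (Fin n), A.card ≤ l → (∀ B ∈ G, tau ≤ (A ∩ B).card) → ∃ D ∈ C, D ⊆ A := by
  obtain ⟨C, h1, h2, h3⟩ := h47_cov_aux n l tau G hG l ∅
  exact ⟨C, h1, h2, fun A hA hc => h3 A (Finset.empty_subset A) (by simpa using hA) hc⟩

end Pool.Agent.H5.EG
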