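import Pool.Agent.H5.EG.Asy

/-!
[EG Dom] A statement on numbers only. PROOF. `C = C(n-t,r)`, `L = (2r+1)^r`, `P = (2r+1) (Q^2 L^2 (2r+1)^2 + Q)`, `M = 2 P n^(r-1)`,
`n0` from `asy t r (2P + l + Q^2 (2r+1)^2 + ..)`. Choose `x, y <= 2r` with `f x * g y` maximal: `C^2 <= ∑ f ∑ g <= (2r+1)^2 f x g y`.
By (a) `n f x g y <= Q^2 n^(2r)` is impossible, so `x + y = 2r`, `f x <= C(n-t,x) <= n^x`, `g y <= C(n-t,y) <= n^y`, `g y > 0`.
For `x' < x`: `n f x' <= Q n^(x'+1) <= Q n^x`. For `x' > x`, `x' <= 2r`: `x' + y > 2r`, so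
`n f x' g y <= Q^2 n^(2r) <= Q^2 L^2 C^2 <= Q^2 L^2 (2r+1)^2 f x g y <= Q^2 L^2 (2r+1)^2 n^x g y`, cancel `g y`. So
`n ∑ f <= n f x + P n^x`, the same for `g`. Hence `n^2 C^2 <= (n f x + P n^x)(n g y + P n^y)`, and by (b) `x = y = r`. With
`g r <= C`: `n^2 C^2 <= (n f r + P n^r)(n C + P n^r)`; if `n f r + 2 P n^r < n C` the right side is
`< (n C - P n^r)(n C + P n^r) <= n^2 C^2`. So `n C <= n f r + 2 P n^r`, divide by `n`. The same for `g`.
-/

set_option autoImplicit false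

namespace Pool.Agent.H5.EG

private theorem dom_choose (n t x : ℕ) : (n - t).choose x ≤ n ^ x := by
  have h1 : (n - t).choose x ≤ (n - t).descFactorial x := by
    rw [Nat.descFactorial_eq_factorial_mul_choose]
    exact Nat.le_mul_of_pos_left _ (Nat.factorial_pos x)
  exact (h1.trans (Nat.descFactorial_le_pow _ _)).trans (Nat.pow_le_pow_left (Nat.sub_le _ _) _)

private theorem dom_max (r : ℕ) (f : ℕ → ℕ) :
    ∃ x ≤ 2 * r, ∑ x' ∈ Finset.range (2 * r + 1), f x' ≤ (2 * r + 1) * f x := by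
  obtain ⟨x, hx, hm⟩ := Finset.exists_max_image (Finset.range (2 * r + 1)) f ⟨0, by simp⟩
  refine ⟨x, by have := Finset.mem_range.1 hx; omega, ?_⟩
  have := Finset.sum_le_card_nsmul (Finset.range (2 * r + 1)) f (f x) hm
  rwa [Finset.card_range, smul_eq_mul] at this

private theorem dom_sum (n r x B : ℕ) (f : ℕ → ℕ) (hx : x ≤ 2 * r)
    (h : ∀ x' ≤ 2 * r, x' ≠ x → n * f x' ≤ B * n ^ x) :
    n * ∑ x' ∈ Finset.range (2 * r + 1), f x' ≤ n * f x + (2 * r + 1) * B * n ^ x := by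
  have h1 : ∀ x' ∈ Finset.range (2 * r + 1), n * f x' ≤ (if x' = x then n * f x else 0) + B * n ^ x := by
    intro x' hx'
    by_cases he : x' = x
    · rw [if_pos he, he]
      exact Nat.le_add_right _ _
    · rw [if_neg he, Nat.zero_add]
      exact h x' (by have := Finset.mem_range.1 hx'; omega) he
  rw [Finset.mul_sum]
  refine (Finset.sum_le_sum h1).trans ?_
  rw [Finset.sum_add_distrib, Finset.sum_ite_eq', if_pos (Finset.mem_range.2 (by omega)), Finset.sum_const,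
    Finset.card_range, smul_eq_mul, mul_assoc]

private theorem dom_lev (n r Q L C x y : ℕ) (f g : ℕ → ℕ) (hn : 1 ≤ n)
    (hf : ∀ x ≤ 2 * r, f x ≤ Q * n ^ x)
    (h1 : ∀ x' ≤ 2 * r, x < x' → n * (f x' * g y) ≤ Q ^ 2 * n ^ (2 * r))
    (hc : n ^ r ≤ L * C) (hm : C ^ 2 ≤ (2 * r + 1) ^ 2 * (f x * g y)) (hfx : f x ≤ n ^ x) (hg : 0 < g y) :
    ∀ x' ≤ 2 * r, x' ≠ x → n * f x' ≤ (Q ^ 2 * L ^ 2 * (2 * r + 1) ^ 2 + Q) * n ^ x := by
  intro x' hx' hne
  rcases Nat.lt_or_gt_of_ne hne with hlt | hgt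
  · calc n * f x' ≤ n * (Q * n ^ x') := Nat.mul_le_mul_left _ (hf x' hx')
      _ = Q * n ^ (x' + 1) := by ring
      _ ≤ Q * n ^ x := Nat.mul_le_mul_left _ (Nat.pow_le_pow_right hn hlt)
      _ ≤ (Q ^ 2 * L ^ 2 * (2 * r + 1) ^ 2 + Q) * n ^ x := Nat.mul_le_mul_right _ (Nat.le_add_left _ _)
  · have h2 : (n * f x') * g y ≤ (Q ^ 2 * L ^ 2 * (2 * r + 1) ^ 2 * f x) * g y := by
      calc (n * f x') * g y = n * (f x' * g y) := by ring
        _ ≤ Q ^ 2 * n ^ (2 * r) := h1 x' hx' hgt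
        _ = Q ^ 2 * (n ^ r) ^ 2 := by rw [← pow_mul, mul_comm r 2]
        _ ≤ Q ^ 2 * (L * C) ^ 2 := Nat.mul_le_mul_left _ (Nat.pow_le_pow_left hc 2)
        _ = Q ^ 2 * L ^ 2 * C ^ 2 := by ring
        _ ≤ Q ^ 2 * L ^ 2 * ((2 * r + 1) ^ 2 * (f x * g y)) := Nat.mul_le_mul_left _ hm
        _ = (Q ^ 2 * L ^ 2 * (2 * r + 1) ^ 2 * f x) * g y := by ring
    calc n * f x' ≤ Q ^ 2 * L ^ 2 * (2 * r + 1) ^ 2 * f x := Nat.le_of_mul_le_mul_right h2 hg
      _ ≤ Q ^ 2 * L ^ 2 * (2 * r + 1) ^ 2 * n ^ x := Nat.mul_le_mul_left _ hfx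
      _ ≤ (Q ^ 2 * L ^ 2 * (2 * r + 1) ^ 2 + Q) * n ^ x := Nat.mul_le_mul_right _ (Nat.le_add_right _ _)

private theorem dom_end (n r P C a b : ℕ) (hr : 1 ≤ r) (hn : 1 ≤ n) (hb : b ≤ C)
    (h : n ^ 2 * C ^ 2 ≤ (n * a + P * n ^ r) * (n * b + P * n ^ r)) : C ≤ a + 2 * P * n ^ (r - 1) := by
  by_contra hlt
  push Not at hlt
  have hpow : n * n ^ (r - 1) = n ^ r := by
    rw [← pow_succ']
    congr 1
    omega
  have h1 : n * a + 2 * (P * n ^ r) < n * C := by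
    have h2 : n * (a + 2 * P * n ^ (r - 1)) < n * C := Nat.mul_lt_mul_of_pos_left hlt (by omega)
    have h3 : n * (a + 2 * P * n ^ (r - 1)) = n * a + 2 * (P * n ^ r) := by
      rw [← hpow]
      ring
    rwa [h3] at h2
  have h4 : n * b + P * n ^ r ≤ n * C + P * n ^ r := Nat.add_le_add_right (Nat.mul_le_mul_left _ hb) _
  set Z := P * n ^ r with hZ
  set W := n * C with hW
  set X := n * a + Z with hX
  have h5 : X + Z + 1 ≤ W := by omega
  have h6 : W * W ≤ X * (W + Z) := by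
    calc W * W = n ^ 2 * C ^ 2 := by rw [hW]; ring
      _ ≤ X * (n * b + Z) := h
      _ ≤ X * (W + Z) := Nat.mul_le_mul_left _ h4
  have h7 : W * (X + Z + 1) ≤ W * W := Nat.mul_le_mul_left _ h5
  have h8 : X * Z ≤ W * Z := Nat.mul_le_mul_right _ (by omega)
  have h9 : W * (X + Z + 1) = X * W + W * Z + W := by ring
  have h10 : X * (W + Z) = X * W + X * Z := by ring
  omega

theorem dom (t r Q l : ℕ) (hr : 1 ≤ r) (hQ : 1 ≤ Q) : ∃ n0 : ℕ, ∀ n : ℕ, n0 ≤ n → ∃ M : ℕ,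
    M + l * n ^ (r - 1) < (n - t).choose r ∧
    ∀ f g : ℕ → ℕ, (∀ x ≤ 2 * r, f x ≤ Q * n ^ x) → (∀ y ≤ 2 * r, g y ≤ Q * n ^ y) →
      (∀ x ≤ 2 * r, ∀ y ≤ 2 * r, n * (f x * g y) ≤ Q ^ 2 * n ^ (2 * r) ∨
        (x + y = 2 * r ∧ f x ≤ (n - t).choose x ∧ g y ≤ (n - t).choose y)) →
      (n - t).choose r ^ 2 ≤
        (∑ x ∈ Finset.range (2 * r + 1), f x) * ∑ y ∈ Finset.range (2 * r + 1), g y →
      (n - t).choose r ≤ f r + M ∧ (n - t).choose r ≤ g r + M := by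
  have _ := hQ
  set L : ℕ := (2 * r + 1) ^ r with hL
  set B : ℕ := Q ^ 2 * L ^ 2 * (2 * r + 1) ^ 2 + Q with hB
  set P : ℕ := (2 * r + 1) * B with hP
  set P' : ℕ := 2 * P + l + Q ^ 2 * (2 * r + 1) ^ 2 with hP'
  obtain ⟨n0, hn0⟩ := asy t r P' hr
  refine ⟨max n0 1, fun n hn => ?_⟩
  have hn1 : 1 ≤ n := (le_max_right _ _).trans hn
  obtain ⟨ha, hb, hc, he⟩ := hn0 n ((le_max_left _ _).trans hn)
  set C : ℕ := (n - t).choose r with hC
  refine ⟨2 * P * n ^ (r - 1), ?_, ?_⟩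
  · calc 2 * P * n ^ (r - 1) + l * n ^ (r - 1) = (2 * P + l) * n ^ (r - 1) := by ring
      _ ≤ P' * n ^ (r - 1) := Nat.mul_le_mul_right _ (by rw [hP']; exact Nat.le_add_right _ _)
      _ < C := he
  · intro f g hf hg h hsum
    obtain ⟨x, hx, hmx⟩ := dom_max r f
    obtain ⟨y, hy, hmy⟩ := dom_max r g
    have hm : C ^ 2 ≤ (2 * r + 1) ^ 2 * (f x * g y) := by
      calc C ^ 2 ≤ _ := hsum
        _ ≤ ((2 * r + 1) * f x) * ((2 * r + 1) * g y) := Nat.mul_le_mul hmx hmy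
        _ = (2 * r + 1) ^ 2 * (f x * g y) := by ring
    have hCpos : 0 < C := lt_of_le_of_lt (Nat.zero_le _) he
    have hfg : 0 < f x * g y := by
      rcases Nat.eq_zero_or_pos (f x * g y) with h0 | h0
      · rw [h0, mul_zero] at hm
        have : 0 < C ^ 2 := pow_pos hCpos 2
        omega
      · exact h0
    have hfx0 : 0 < f x := Nat.pos_of_mul_pos_right hfg
    have hgy0 : 0 < g y := Nat.pos_of_mul_pos_left hfg
    have hxy : x + y = 2 * r ∧ f x ≤ (n - t).choose x ∧ g y ≤ (n - t).choose y := by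
      rcases h x hx y hy with h1 | h1
      · exfalso
        have h2 : n * C ^ 2 ≤ P' * n ^ (2 * r) := by
          calc n * C ^ 2 ≤ n * ((2 * r + 1) ^ 2 * (f x * g y)) := Nat.mul_le_mul_left _ hm
            _ = (2 * r + 1) ^ 2 * (n * (f x * g y)) := by ring
            _ ≤ (2 * r + 1) ^ 2 * (Q ^ 2 * n ^ (2 * r)) := Nat.mul_le_mul_left _ h1
            _ = (Q ^ 2 * (2 * r + 1) ^ 2) * n ^ (2 * r) := by ring
            _ ≤ P' * n ^ (2 * r) := Nat.mul_le_mul_right _ (by rw [hP']; exact Nat.le_add_left _ _)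
        exact absurd ha (not_lt.2 h2)
      · exact h1
    obtain ⟨hxy1, hfx, hgy⟩ := hxy
    have hlevf := dom_lev n r Q L C x y f g hn1 hf (by
      intro x' hx' hlt
      rcases h x' hx' y hy with h1 | h1
      · exact h1
      · exfalso
        have := h1.1
        omega) hc hm (hfx.trans (dom_choose n t x)) hgy0
    have hlevg := dom_lev n r Q L C y x g f hn1 hg (by
      intro y' hy' hlt
      rcases h x hx y' hy' with h1 | h1
      · rwa [mul_comm (g y') (f x)]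
      · exfalso
        have := h1.1
        omega) hc (by rwa [mul_comm (g y) (f x)]) (hgy.trans (dom_choose n t y)) hfx0
    have hsf := dom_sum n r x B f hx hlevf
    have hsg := dom_sum n r y B g hy hlevg
    rw [← hP] at hsf hsg
    have hprod : n ^ 2 * C ^ 2 ≤ (n * f x + P * n ^ x) * (n * g y + P * n ^ y) := by
      calc n ^ 2 * C ^ 2 ≤ n ^ 2 * ((∑ x ∈ Finset.range (2 * r + 1), f x) *
            ∑ y ∈ Finset.range (2 * r + 1), g y) := Nat.mul_le_mul_left _ hsum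
        _ = (n * ∑ x ∈ Finset.range (2 * r + 1), f x) * (n * ∑ y ∈ Finset.range (2 * r + 1), g y) := by ring
        _ ≤ _ := Nat.mul_le_mul hsf hsg
    have hPP : P ≤ P' := by rw [hP']; omega
    have hxr : x = y := by
      by_contra hne
      have h1 := hb x y hxy1 hne
      have h2 : (n * f x + P * n ^ x) * (n * g y + P * n ^ y) ≤
          (n * (n - t).choose x + P' * n ^ x) * (n * (n - t).choose y + P' * n ^ y) :=
        Nat.mul_le_mul (Nat.add_le_add (Nat.mul_le_mul_left _ hfx) (Nat.mul_le_mul_right _ hPP))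
          (Nat.add_le_add (Nat.mul_le_mul_left _ hgy) (Nat.mul_le_mul_right _ hPP))
      exact absurd (lt_of_le_of_lt (hprod.trans h2) h1) (lt_irrefl _)
    have hx1 : x = r := by omega
    have hy1 : y = r := by omega
    rw [hx1, hy1] at hprod
    rw [hx1] at hfx
    rw [hy1] at hgy
    exact ⟨dom_end n r P C (f r) (g r) hr hn1 hgy hprod,
      dom_end n r P C (g r) (f r) hr hn1 hfx (by
        rw [mul_comm (n * g r + P * n ^ r)]
        exact hprod)⟩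

end Pool.Agent.H5.EG
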