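import Mathlib

/-!
[EG Sup] Counting supersets of `T`. `A ↦ A \ T` is injective on the supersets of `T`, with values in the subsets of `univ \ T`
of size `a - |T|` (or `≤ r`). `low`: the family of all `A ⊇ T`, `|A| ≤ t + r`.
-/

set_option autoImplicit false

namespace Pool.Agent.H5.EG

private lemma h51_inj {n : ℕ} {T : Finset (Fin n)} {A B : Finset (Fin n)} (hA : T ⊆ A) (hB : T ⊆ B)
    (h : A \ T = B \ T) : A = B := by
  rw [← Finset.sdiff_union_of_subset hA, ← Finset.sdiff_union_of_subset hB, h]

private lemma h51_card_compl (n : ℕ) (T : Finset (Fin n)) :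
    (Finset.univ \ T : Finset (Fin n)).card = n - T.card := by
  rw [Finset.card_sdiff_of_subset (Finset.subset_univ T), Finset.card_univ, Fintype.card_fin]

/-- supersets of `T` of size `a` -/
theorem sup_eq (n a : ℕ) (T : Finset (Fin n)) (F : Finset (Finset (Fin n)))
    (hF : ∀ A ∈ F, T ⊆ A ∧ A.card = a) : F.card ≤ (n - T.card).choose (a - T.card) := by
  classical
  have h1 : F.card ≤ (Finset.powersetCard (a - T.card) (Finset.univ \ T : Finset (Fin n))).card := by
    refine Finset.card_le_card_of_injOn (fun A => A \ T) ?_ ?_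
    · intro A hA
      have h := hF A hA
      rw [Finset.mem_coe, Finset.mem_powersetCard]
      refine ⟨Finset.sdiff_subset_sdiff (Finset.subset_univ A) (le_refl T), ?_⟩
      rw [Finset.card_sdiff_of_subset h.1, h.2]
    · intro A hA B hB hAB
      exact h51_inj (hF A hA).1 (hF B hB).1 hAB
  rwa [Finset.card_powersetCard, h51_card_compl] at h1

/-- supersets of `T` of size `a`, crude bound -/
theorem sup_pow (n a b : ℕ) (hn : 1 ≤ n) (T : Finset (Fin n)) (hT : b ≤ T.card) (F : Finset (Finset (Fin n)))
    (hF : ∀ A ∈ F, T ⊆ A ∧ A.card = a) : F.card ≤ n ^ (a - b) := by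
  calc F.card ≤ (n - T.card).choose (a - T.card) := sup_eq n a T F hF
    _ ≤ (n - T.card) ^ (a - T.card) := Nat.choose_le_pow _ _
    _ ≤ n ^ (a - T.card) := Nat.pow_le_pow_left (Nat.sub_le _ _) _
    _ ≤ n ^ (a - b) := Nat.pow_le_pow_right hn (Nat.sub_le_sub_left hT a)

private lemma h51_small_card (n r : ℕ) (T : Finset (Fin n)) :
    ((Finset.range (r + 1)).biUnion fun i =>
      Finset.powersetCard i (Finset.univ \ T : Finset (Fin n))).card =
      ∑ i ∈ Finset.range (r + 1), (n - T.card).choose i := by
  classical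
  rw [Finset.card_biUnion]
  · refine Finset.sum_congr rfl fun i _ => ?_
    rw [Finset.card_powersetCard, h51_card_compl]
  · intro i _ j _ hij
    exact Finset.pairwise_disjoint_powersetCard _ hij

/-- supersets of `T` of size at most `|T| + r` -/
theorem sup_le (n r : ℕ) (T : Finset (Fin n)) (F : Finset (Finset (Fin n)))
    (hF : ∀ A ∈ F, T ⊆ A ∧ A.card ≤ T.card + r) :
    F.card ≤ ∑ i ∈ Finset.range (r + 1), (n - T.card).choose i := by
  classical
  rw [← h51_small_card n r T]
  refine Finset.card_le_card_of_injOn (fun A => A \ T) ?_ ?_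
  · intro A hA
    have h := hF A hA
    rw [Finset.mem_coe, Finset.mem_biUnion]
    refine ⟨(A \ T).card, ?_, ?_⟩
    · rw [Finset.mem_range, Finset.card_sdiff_of_subset h.1]
      have := h.2
      omega
    · rw [Finset.mem_powersetCard]
      exact ⟨Finset.sdiff_subset_sdiff (Finset.subset_univ A) (le_refl T), rfl⟩
  · intro A hA B hB hAB
    exact h51_inj (hF A hA).1 (hF B hB).1 hAB

/-- the family of all supersets of a `t`-set of size at most `t + r` -/
theorem low (n t r : ℕ) (htn : t + r ≤ n) :
    ∃ F : Finset (Finset (Fin n)), F.card = ∑ i ∈ Finset.range (r + 1), (n - t).choose i ∧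
      ∀ A ∈ F, ∀ B ∈ F, t ≤ (A ∩ B).card ∧ (A ∪ B).card ≤ t + 2 * r := by
  classical
  obtain ⟨T, -, hT⟩ := Finset.exists_subset_card_eq
    (s := (Finset.univ : Finset (Fin n))) (n := t) (by simp; omega)
  refine ⟨((Finset.range (r + 1)).biUnion fun i =>
      Finset.powersetCard i (Finset.univ \ T : Finset (Fin n))).image (fun S => T ∪ S), ?_, ?_⟩
  · rw [Finset.card_image_of_injOn, h51_small_card, hT]
    intro S hS S' hS' h
    rw [Finset.mem_coe, Finset.mem_biUnion] at hS hS'
    obtain ⟨i, -, hi⟩ := hS
    obtain ⟨j, -, hj⟩ := hS'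
    have hd : Disjoint S T := (Finset.subset_sdiff.1 (Finset.mem_powersetCard.1 hi).1).2
    have hd' : Disjoint S' T := (Finset.subset_sdiff.1 (Finset.mem_powersetCard.1 hj).1).2
    have h1 : (T ∪ S) \ T = (T ∪ S') \ T := by
      change T ∪ S = T ∪ S' at h
      rw [h]
    rwa [Finset.union_sdiff_left, Finset.union_sdiff_left, Finset.sdiff_eq_self_of_disjoint hd,
      Finset.sdiff_eq_self_of_disjoint hd'] at h1
  · intro A hA B hB
    have key : ∀ A ∈ ((Finset.range (r + 1)).biUnion fun i =>
        Finset.powersetCard i (Finset.univ \ T : Finset (Fin n))).image (fun S => T ∪ S),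
        T ⊆ A ∧ A.card ≤ t + r := by
      intro A hA
      rw [Finset.mem_image] at hA
      obtain ⟨S, hS, rfl⟩ := hA
      rw [Finset.mem_biUnion] at hS
      obtain ⟨i, hi, hiS⟩ := hS
      rw [Finset.mem_range] at hi
      rw [Finset.mem_powersetCard] at hiS
      refine ⟨Finset.subset_union_left, (Finset.card_union_le _ _).trans ?_⟩
      rw [hT, hiS.2]
      omega
    have h1 := key A hA
    have h2 := key B hB
    have h3 : t ≤ (A ∩ B).card := by
      rw [← hT]
      exact Finset.card_le_card (Finset.subset_inter h1.1 h2.1)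
    have h4 := Finset.card_union_add_card_inter A B
    refine ⟨h3, ?_⟩
    have := h1.2
    have := h2.2
    omega

end Pool.Agent.H5.EG
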