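import Pool.Agent.H5.EG.Cov
import Pool.Agent.H5.EG.Sup

/-!
[EG Lev] PROOF. `cov` for `G` gives `≤ Q = (l+1)^l` covers `D`, `|D| ≥ tau` (as `|D ∩ B| ≥ tau` for one `B ∈ G`). Every `A ∈ F`
contains one of them, at most `n^(a-tau)` sets `A` contain a given `D` (`sup_pow`): `lev1`. If some `D` in the list has exactly
`tau` elements, then `D ⊆ B` for all `B ∈ G` (`|D ∩ B| ≥ tau = |D|`): second alternative of `lev2` with `T = D`. If not, all
`|D| ≥ tau + 1`; if `a = tau` then `F = ∅`; else `F.card ≤ Q n^(a-tau-1)` and `n * n^(a-tau-1) = n^(a-tau)`.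
-/

set_option autoImplicit false

namespace Pool.Agent.H5.EG

theorem h47_lev_aux (n b a : ℕ) (hn : 1 ≤ n) (F C : Finset (Finset (Fin n)))
    (hF : ∀ A ∈ F, A.card = a) (hb : ∀ D ∈ C, b ≤ D.card) (hcov : ∀ A ∈ F, ∃ D ∈ C, D ⊆ A) :
    F.card ≤ C.card * n ^ (a - b) := by
  classical
  calc F.card ≤ (C.biUnion (fun D => F.filter (fun A => D ⊆ A))).card := by
        apply Finset.card_le_card
        intro A hA
        obtain ⟨D, hD, hDA⟩ := hcov A hA
        exact Finset.mem_biUnion.2 ⟨D, hD, Finset.mem_filter.2 ⟨hA, hDA⟩⟩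
    _ ≤ ∑ D ∈ C, (F.filter (fun A => D ⊆ A)).card := Finset.card_biUnion_le
    _ ≤ ∑ _D ∈ C, n ^ (a - b) := by
        apply Finset.sum_le_sum
        intro D hD
        apply sup_pow n a b hn D (hb D hD)
        intro A hA
        rw [Finset.mem_filter] at hA
        exact ⟨hA.2, hF A hA.1⟩
    _ = C.card * n ^ (a - b) := by rw [Finset.sum_const, smul_eq_mul]

theorem lev1 (n l tau a : ℕ) (hn : 1 ≤ n) (F G : Finset (Finset (Fin n))) (hG : ∀ B ∈ G, B.card ≤ l)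
    (hF : ∀ A ∈ F, A.card = a) (hal : a ≤ l) (hGn : G.Nonempty)
    (h : ∀ A ∈ F, ∀ B ∈ G, tau ≤ (A ∩ B).card) : F.card ≤ (l + 1) ^ l * n ^ (a - tau) := by
  obtain ⟨C, hC1, hC2, hC3⟩ := cov n l tau G hG
  obtain ⟨B0, hB0⟩ := hGn
  have hb : ∀ D ∈ C, tau ≤ D.card := fun D hD =>
    (hC2 D hD B0 hB0).trans (Finset.card_le_card Finset.inter_subset_left)
  have hcov : ∀ A ∈ F, ∃ D ∈ C, D ⊆ A := fun A hA =>
    hC3 A (by rw [hF A hA]; exact hal) (h A hA)
  exact (h47_lev_aux n tau a hn F C hF hb hcov).trans (Nat.mul_le_mul_right _ hC1)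

theorem lev2 (n l tau a : ℕ) (hn : 1 ≤ n) (F G : Finset (Finset (Fin n))) (hG : ∀ B ∈ G, B.card ≤ l)
    (hF : ∀ A ∈ F, A.card = a) (hal : a ≤ l) (hGn : G.Nonempty)
    (h : ∀ A ∈ F, ∀ B ∈ G, tau ≤ (A ∩ B).card) :
    n * F.card ≤ (l + 1) ^ l * n ^ (a - tau) ∨ ∃ T : Finset (Fin n), T.card = tau ∧ ∀ B ∈ G, T ⊆ B := by
  obtain ⟨C, hC1, hC2, hC3⟩ := cov n l tau G hG
  obtain ⟨B0, hB0⟩ := hGn
  have hb : ∀ D ∈ C, tau ≤ D.card := fun D hD =>
    (hC2 D hD B0 hB0).trans (Finset.card_le_card Finset.inter_subset_left)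
  have hcov : ∀ A ∈ F, ∃ D ∈ C, D ⊆ A := fun A hA =>
    hC3 A (by rw [hF A hA]; exact hal) (h A hA)
  by_cases hex : ∃ D ∈ C, D.card = tau
  · right
    obtain ⟨D, hD, hDt⟩ := hex
    refine ⟨D, hDt, fun B hB => ?_⟩
    have hEq : D ∩ B = D :=
      Finset.eq_of_subset_of_card_le Finset.inter_subset_left (by rw [hDt]; exact hC2 D hD B hB)
    exact Finset.inter_eq_left.1 hEq
  · left
    push Not at hex
    have hb' : ∀ D ∈ C, tau + 1 ≤ D.card := fun D hD =>
      Nat.succ_le_of_lt (lt_of_le_of_ne (hb D hD) (Ne.symm (hex D hD)))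
    by_cases ha : a ≤ tau
    · have hF0 : F = ∅ := by
        rw [Finset.eq_empty_iff_forall_notMem]
        intro A hA
        obtain ⟨D, hD, hDA⟩ := hcov A hA
        have h1 := hb' D hD
        have h2 := Finset.card_le_card hDA
        rw [hF A hA] at h2
        omega
      rw [hF0]
      simp
    · have h1 := (h47_lev_aux n (tau + 1) a hn F C hF hb' hcov).trans (Nat.mul_le_mul_right _ hC1)
      calc n * F.card ≤ n * ((l + 1) ^ l * n ^ (a - (tau + 1))) := Nat.mul_le_mul_left _ h1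
        _ = (l + 1) ^ l * (n ^ (a - (tau + 1)) * n) := by ring
        _ = (l + 1) ^ l * n ^ (a - tau) := by
            rw [← pow_succ]
            congr 2
            omega

end Pool.Agent.H5.EG
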