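import Pool.Agent.H5.EG.Sup

/-!
[EG Str] If `G` contains all but few of the sets `T ∪ Y`, `|Y| = r`, then every member of `F` is `T ∪ X` with `|X| ≤ r`.
-/

set_option autoImplicit false

namespace Pool.Agent.H5.EG

open Finset

/-- subsets of size `r` of `S` which meet `A` -/
theorem str_meet {n : ℕ} (r l : ℕ) (hr : 1 ≤ r) (S A : Finset (Fin n)) (hA : A.card ≤ l) :
    ((S.powersetCard r).filter (fun Y => ¬ Disjoint Y A)).card ≤ l * n ^ (r - 1) := by
  classical
  have hsub : (S.powersetCard r).filter (fun Y => ¬ Disjoint Y A) ⊆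
      A.biUnion fun a => ((univ : Finset (Fin n)).powersetCard (r - 1)).image fun Z => insert a Z := by
    intro Y hY
    rw [mem_filter, mem_powersetCard] at hY
    obtain ⟨⟨hYS, hYc⟩, hd⟩ := hY
    rw [not_disjoint_iff] at hd
    obtain ⟨a, haY, haA⟩ := hd
    rw [mem_biUnion]
    refine ⟨a, haA, ?_⟩
    rw [mem_image]
    refine ⟨Y.erase a, ?_, insert_erase haY⟩
    rw [mem_powersetCard]
    exact ⟨subset_univ _, by rw [card_erase_of_mem haY, hYc]⟩
  refine (card_le_card hsub).trans (card_biUnion_le.trans ?_)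
  have h1 : ∀ a ∈ A, (((univ : Finset (Fin n)).powersetCard (r - 1)).image fun Z => insert a Z).card ≤
      n ^ (r - 1) := by
    intro a _
    refine card_image_le.trans ?_
    rw [card_powersetCard, card_univ, Fintype.card_fin]
    exact Nat.choose_le_pow n (r - 1)
  calc ∑ a ∈ A, (((univ : Finset (Fin n)).powersetCard (r - 1)).image fun Z => insert a Z).card
      ≤ ∑ a ∈ A, n ^ (r - 1) := sum_le_sum h1
    _ = A.card * n ^ (r - 1) := by rw [sum_const, smul_eq_mul]
    _ ≤ l * n ^ (r - 1) := Nat.mul_le_mul_right _ hA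

theorem str (n t r l M : ℕ) (hr : 1 ≤ r) (hl : t + 2 * r ≤ l) (F G : Finset (Finset (Fin n)))
    (h : ∀ A ∈ F, ∀ B ∈ G, t ≤ (A ∩ B).card ∧ (A ∪ B).card ≤ t + 2 * r)
    (T : Finset (Fin n)) (hT : T.card = t)
    (hmiss : (n - t).choose r ≤ (G.filter (fun B => T ⊆ B ∧ B.card = t + r)).card + M)
    (hM : M + l * n ^ (r - 1) < (n - t).choose r) :
    F.card ≤ ∑ i ∈ Finset.range (r + 1), (n - t).choose i := by
  classical
  rw [← hT]
  refine sup_le n r T F fun A hA => ?_
  -- a member of `G`
  have hGn : ∃ B, B ∈ G := by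
    by_contra hcon
    push Not at hcon
    have : G.filter (fun B => T ⊆ B ∧ B.card = t + r) = ∅ := by
      rw [filter_eq_empty_iff]
      intro B hB
      exact absurd hB (hcon B)
    rw [this, card_empty] at hmiss
    omega
  have hAl : A.card ≤ l := by
    obtain ⟨B, hB⟩ := hGn
    exact ((card_le_card subset_union_left).trans (h A hA B hB).2).trans hl
  set P := (Tᶜ).powersetCard r with hP
  have hPc : P.card = (n - t).choose r := by
    rw [hP, card_powersetCard, card_compl, Fintype.card_fin, hT]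
  -- the sets `T ∪ Y` not in `G`
  have hbad : (P.filter (fun Y => T ∪ Y ∉ G)).card ≤ M := by
    have h1 : (P.filter (fun Y => T ∪ Y ∈ G)).card + (P.filter (fun Y => T ∪ Y ∉ G)).card = P.card :=
      card_filter_add_card_filter_not (s := P) (fun Y => T ∪ Y ∈ G)
    have h2 : (G.filter (fun B => T ⊆ B ∧ B.card = t + r)).card ≤ (P.filter (fun Y => T ∪ Y ∈ G)).card := by
      refine card_le_card_of_injOn (fun B => B \ T) ?_ ?_
      · intro B hB
        rw [mem_coe, mem_filter] at hB
        obtain ⟨hBG, hTB, hBc⟩ := hB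
        change B \ T ∈ P.filter (fun Y => T ∪ Y ∈ G)
        rw [mem_filter, hP, mem_powersetCard]
        refine ⟨⟨?_, ?_⟩, ?_⟩
        · intro x hx
          rw [mem_compl]
          exact (mem_sdiff.mp hx).2
        · rw [card_sdiff_of_subset hTB, hBc, hT]
          omega
        · rw [union_sdiff_of_subset hTB]
          exact hBG
      · intro B hB B' hB' he
        rw [mem_coe, mem_filter] at hB hB'
        change B \ T = B' \ T at he
        rw [← union_sdiff_of_subset hB.2.1, ← union_sdiff_of_subset hB'.2.1, he]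
    omega
  have hmeet := str_meet r l hr Tᶜ A hAl
  rw [← hP] at hmeet
  -- a good `Y`
  obtain ⟨Y, hYP, hYG, hYA⟩ : ∃ Y ∈ P, T ∪ Y ∈ G ∧ Disjoint Y A := by
    by_contra hcon
    push Not at hcon
    have h1 : P ⊆ P.filter (fun Y => T ∪ Y ∉ G) ∪ P.filter (fun Y => ¬ Disjoint Y A) := by
      intro Y hY
      rw [mem_union, mem_filter, mem_filter]
      by_cases hYG : T ∪ Y ∈ G
      · exact Or.inr ⟨hY, hcon Y hY hYG⟩
      · exact Or.inl ⟨hY, hYG⟩
    have h2 := (card_le_card h1).trans (card_union_le _ _)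
    rw [hPc] at h2
    omega
  rw [hP, mem_powersetCard] at hYP
  obtain ⟨hYT, hYc⟩ := hYP
  have hTY : Disjoint T Y := by
    rw [disjoint_left]
    intro x hx hxY
    exact (mem_compl.mp (hYT hxY)) hx
  obtain ⟨h1, h2⟩ := h A hA _ hYG
  have h3 : A ∩ (T ∪ Y) = A ∩ T := by
    rw [inter_union_distrib_left, disjoint_iff_inter_eq_empty.mp hYA.symm, union_empty]
  rw [h3] at h1
  have h4 : A ∩ T = T := eq_of_subset_of_card_le inter_subset_right (by rw [hT]; exact h1)
  have hTA : T ⊆ A := by
    rw [← h4]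
    exact inter_subset_left
  refine ⟨hTA, ?_⟩
  have h5 : A ∪ (T ∪ Y) = A ∪ Y := by
    rw [← union_assoc, union_eq_left.mpr hTA]
  rw [h5, card_union_of_disjoint hYA.symm, hYc] at h2
  rw [hT]
  omega

end Pool.Agent.H5.EG
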