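import Pool.Agent.H5.EG.Lev
import Pool.Agent.H5.EG.Str
import Pool.Agent.H5.EG.Dom
import Pool.Agent.H23.TSDefs
import Pool.Agent.H23.TSOdd

set_option autoImplicit false

namespace Pool.Agent.H5.EG

open Finset Pool.Agent.H23.TS

/-- the number of members of size `t + x` -/
def lv {n : ℕ} (t : ℕ) (F : Finset (Finset (Fin n))) (x : ℕ) : Finset (Finset (Fin n)) :=
  F.filter fun A => A.card = t + x

theorem lv_mem {n : ℕ} {t : ℕ} {F : Finset (Finset (Fin n))} {x : ℕ} {A : Finset (Fin n)} :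
    A ∈ lv t F x ↔ A ∈ F ∧ A.card = t + x := mem_filter

theorem lv_sum {n : ℕ} (t r : ℕ) (F : Finset (Finset (Fin n)))
    (hF : ∀ A ∈ F, t ≤ A.card ∧ A.card ≤ t + 2 * r) :
    F.card = ∑ x ∈ range (2 * r + 1), (lv t F x).card := by
  classical
  rw [card_eq_sum_card_fiberwise (f := fun A => A.card - t) (t := range (2 * r + 1))
    (fun A hA => by
      have := hF A hA
      rw [coe_range, Set.mem_Iio]
      change A.card - t < 2 * r + 1
      omega)]
  refine sum_congr rfl fun x _ => ?_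
  congr 1
  ext A
  rw [mem_filter, lv_mem]
  constructor
  · rintro ⟨h1, h2⟩
    have := hF A h1
    exact ⟨h1, by omega⟩
  · rintro ⟨h1, h2⟩
    exact ⟨h1, by omega⟩

theorem fixed (t r : ℕ) (hr : 1 ≤ r) : ∃ n0 : ℕ, ∀ n : ℕ, n0 ≤ n → ∀ F G : Finset (Finset (Fin n)),
    (∀ A ∈ F, ∀ B ∈ G, t ≤ (A ∩ B).card ∧ (A ∪ B).card ≤ t + 2 * r) →
    F.card * G.card ≤ (∑ i ∈ range (r + 1), (n - t).choose i) ^ 2 := by
  classical
  set l := t + 2 * r with hl
  set Q := (l + 1) ^ l with hQ
  have hQ1 : 1 ≤ Q := Nat.one_le_pow _ _ (by omega)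
  obtain ⟨n0, h0⟩ := dom t r Q (Q + l) hr hQ1
  refine ⟨max n0 1, fun n hn F G h => ?_⟩
  have hn1 : 1 ≤ n := le_trans (le_max_right _ _) hn
  obtain ⟨M, hM, hdom⟩ := h0 n (le_trans (le_max_left _ _) hn)
  by_contra hcon
  rw [not_le] at hcon
  have hFG : 0 < F.card * G.card := lt_of_le_of_lt (Nat.zero_le _) hcon
  have hFn : F.Nonempty := card_pos.mp (Nat.pos_of_mul_pos_right hFG |> fun h => by
    rcases Nat.eq_zero_or_pos F.card with h0 | h0
    · rw [h0, zero_mul] at hFG; omega
    · exact h0)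
  have hGn : G.Nonempty := card_pos.mp (by
    rcases Nat.eq_zero_or_pos G.card with h0 | h0
    · rw [h0, mul_zero] at hFG; omega
    · exact h0)
  have h' : ∀ B ∈ G, ∀ A ∈ F, t ≤ (B ∩ A).card ∧ (B ∪ A).card ≤ t + 2 * r := by
    intro B hB A hA
    rw [inter_comm, union_comm]
    exact h A hA B hB
  have szF : ∀ A ∈ F, t ≤ A.card ∧ A.card ≤ t + 2 * r := by
    intro A hA
    obtain ⟨B, hB⟩ := hGn
    obtain ⟨h1, h2⟩ := h A hA B hB
    exact ⟨h1.trans (card_le_card inter_subset_left), (card_le_card subset_union_left).trans h2⟩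
  have szG : ∀ B ∈ G, t ≤ B.card ∧ B.card ≤ t + 2 * r := by
    intro B hB
    obtain ⟨A, hA⟩ := hFn
    obtain ⟨h1, h2⟩ := h A hA B hB
    exact ⟨h1.trans (card_le_card inter_subset_right), (card_le_card subset_union_right).trans h2⟩
  -- crude level bounds
  have crude : ∀ (F G : Finset (Finset (Fin n))), G.Nonempty → (∀ B ∈ G, B.card ≤ l) →
      (∀ A ∈ F, ∀ B ∈ G, t ≤ (A ∩ B).card) → ∀ x ≤ 2 * r, (lv t F x).card ≤ Q * n ^ x := by
    intro F G hGn hG h x hx
    have := lev1 n l t (t + x) hn1 (lv t F x) G hG (fun A hA => (lv_mem.mp hA).2) (by omega) hGn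
      (fun A hA B hB => h A (lv_mem.mp hA).1 B hB)
    rwa [Nat.add_sub_cancel_left] at this
  have hf1 := crude F G hGn (fun B hB => (szG B hB).2) (fun A hA B hB => (h A hA B hB).1)
  have hg1 := crude G F hFn (fun B hB => (szF B hB).2) (fun A hA B hB => (h' A hA B hB).1)
  -- pairs of levels
  have hpair : ∀ x ≤ 2 * r, ∀ y ≤ 2 * r,
      n * ((lv t F x).card * (lv t G y).card) ≤ Q ^ 2 * n ^ (2 * r) ∨
        (x + y = 2 * r ∧ (lv t F x).card ≤ (n - t).choose x ∧ (lv t G y).card ≤ (n - t).choose y) := by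
    intro x hx y hy
    have fx := hf1 x hx
    have gy := hg1 y hy
    rcases (lv t F x).eq_empty_or_nonempty with e1 | ⟨A0, hA0⟩
    · left; rw [e1]; simp
    rcases (lv t G y).eq_empty_or_nonempty with e2 | ⟨B0, hB0⟩
    · left; rw [e2]; simp
    rcases lt_trichotomy (x + y) (2 * r) with hxy | hxy | hxy
    · left
      calc n * ((lv t F x).card * (lv t G y).card) ≤ n * ((Q * n ^ x) * (Q * n ^ y)) :=
            Nat.mul_le_mul_left _ (Nat.mul_le_mul fx gy)
        _ = Q ^ 2 * n ^ (x + y + 1) := by ring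
        _ ≤ Q ^ 2 * n ^ (2 * r) := Nat.mul_le_mul_left _ (Nat.pow_le_pow_right hn1 (by omega))
    · have a1 := lev2 n l t (t + x) hn1 (lv t F x) (lv t G y)
        (fun B hB => (szG B (lv_mem.mp hB).1).2) (fun A hA => (lv_mem.mp hA).2) (by omega) ⟨B0, hB0⟩
        (fun A hA B hB => (h A (lv_mem.mp hA).1 B (lv_mem.mp hB).1).1)
      have a2 := lev2 n l t (t + y) hn1 (lv t G y) (lv t F x)
        (fun B hB => (szF B (lv_mem.mp hB).1).2) (fun A hA => (lv_mem.mp hA).2) (by omega) ⟨A0, hA0⟩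
        (fun A hA B hB => (h' A (lv_mem.mp hA).1 B (lv_mem.mp hB).1).1)
      rw [Nat.add_sub_cancel_left] at a1 a2
      rcases a1 with a1 | ⟨T, hT, hTG⟩
      · left
        calc n * ((lv t F x).card * (lv t G y).card) = (n * (lv t F x).card) * (lv t G y).card := by ring
          _ ≤ (Q * n ^ x) * (Q * n ^ y) := Nat.mul_le_mul a1 gy
          _ = Q ^ 2 * n ^ (x + y) := by ring
          _ = Q ^ 2 * n ^ (2 * r) := by rw [hxy]
      rcases a2 with a2 | ⟨T', hT', hTF⟩
      · left
        calc n * ((lv t F x).card * (lv t G y).card) = (lv t F x).card * (n * (lv t G y).card) := by ring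
          _ ≤ (Q * n ^ x) * (Q * n ^ y) := Nat.mul_le_mul fx a2
          _ = Q ^ 2 * n ^ (x + y) := by ring
          _ = Q ^ 2 * n ^ (2 * r) := by rw [hxy]
      · right
        have b1 := sup_eq n (t + x) T' (lv t F x) (fun A hA => ⟨hTF A hA, (lv_mem.mp hA).2⟩)
        have b2 := sup_eq n (t + y) T (lv t G y) (fun A hA => ⟨hTG A hA, (lv_mem.mp hA).2⟩)
        rw [hT', Nat.add_sub_cancel_left] at b1
        rw [hT, Nat.add_sub_cancel_left] at b2
        exact ⟨hxy, b1, b2⟩
    · left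
      obtain ⟨d, hd⟩ : ∃ d, x + y = 2 * r + d := ⟨x + y - 2 * r, by omega⟩
      have key : ∀ A ∈ lv t F x, ∀ B ∈ lv t G y, t + d ≤ (A ∩ B).card := by
        intro A hA B hB
        have c1 := (h A (lv_mem.mp hA).1 B (lv_mem.mp hB).1).2
        have c2 := card_union_add_card_inter A B
        rw [(lv_mem.mp hA).2, (lv_mem.mp hB).2] at c2
        omega
      have hdx : d ≤ x := by
        have c1 := key A0 hA0 B0 hB0
        have c2 : (A0 ∩ B0).card ≤ A0.card := card_le_card inter_subset_left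
        rw [(lv_mem.mp hA0).2] at c2
        omega
      have hdy : d ≤ y := by
        have c1 := key A0 hA0 B0 hB0
        have c2 : (A0 ∩ B0).card ≤ B0.card := card_le_card inter_subset_right
        rw [(lv_mem.mp hB0).2] at c2
        omega
      have a1 := lev1 n l (t + d) (t + x) hn1 (lv t F x) (lv t G y)
        (fun B hB => (szG B (lv_mem.mp hB).1).2) (fun A hA => (lv_mem.mp hA).2) (by omega) ⟨B0, hB0⟩ key
      have a2 := lev1 n l (t + d) (t + y) hn1 (lv t G y) (lv t F x)
        (fun B hB => (szF B (lv_mem.mp hB).1).2) (fun A hA => (lv_mem.mp hA).2) (by omega) ⟨A0, hA0⟩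
        (fun A hA B hB => by rw [inter_comm]; exact key B hB A hA)
      rw [show t + x - (t + d) = x - d by omega] at a1
      rw [show t + y - (t + d) = y - d by omega] at a2
      calc n * ((lv t F x).card * (lv t G y).card) ≤ n * ((Q * n ^ (x - d)) * (Q * n ^ (y - d))) :=
            Nat.mul_le_mul_left _ (Nat.mul_le_mul a1 a2)
        _ = Q ^ 2 * n ^ (x - d + (y - d) + 1) := by ring
        _ ≤ Q ^ 2 * n ^ (2 * r) := Nat.mul_le_mul_left _ (Nat.pow_le_pow_right hn1 (by omega))
  have hCK : (n - t).choose r ≤ ∑ i ∈ range (r + 1), (n - t).choose i :=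
    single_le_sum (f := fun i => (n - t).choose i) (fun i _ => Nat.zero_le _) (mem_range.mpr (Nat.lt_succ_self r))
  obtain ⟨hfr, hgr⟩ := hdom (fun x => (lv t F x).card) (fun y => (lv t G y).card) hf1 hg1 hpair (by
    rw [← lv_sum t r F szF, ← lv_sum t r G szG]
    exact (Nat.pow_le_pow_left hCK 2).trans hcon.le)
  -- structure
  have last : ∀ (F G : Finset (Finset (Fin n))),
      (∀ A ∈ F, ∀ B ∈ G, t ≤ (A ∩ B).card ∧ (A ∪ B).card ≤ t + 2 * r) →
      (∀ B ∈ G, t ≤ B.card ∧ B.card ≤ t + 2 * r) →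
      (n - t).choose r ≤ (lv t F r).card + M → (n - t).choose r ≤ (lv t G r).card + M →
      F.card ≤ ∑ i ∈ range (r + 1), (n - t).choose i := by
    intro F G h szG hfr hgr
    have hn' : n ^ r = n * n ^ (r - 1) := by
      rw [← pow_succ']
      congr 1
      omega
    have hM2 : M + Q * n ^ (r - 1) + l * n ^ (r - 1) < (n - t).choose r := by
      calc M + Q * n ^ (r - 1) + l * n ^ (r - 1) = M + (Q + l) * n ^ (r - 1) := by ring
        _ < _ := hM
    have hgpos : 0 < (lv t G r).card := by omega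
    have a1 := lev2 n l t (t + r) hn1 (lv t F r) (lv t G r)
      (fun B hB => (szG B (lv_mem.mp hB).1).2) (fun A hA => (lv_mem.mp hA).2) (by omega)
      (card_pos.mp hgpos)
      (fun A hA B hB => (h A (lv_mem.mp hA).1 B (lv_mem.mp hB).1).1)
    rw [Nat.add_sub_cancel_left] at a1
    rcases a1 with a1 | ⟨T, hT, hTG⟩
    · exfalso
      have b1 : n * (lv t F r).card ≤ n * (Q * n ^ (r - 1)) := by
        refine a1.trans (le_of_eq ?_)
        change Q * n ^ r = _
        rw [hn']
        ring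
      have b2 := Nat.le_of_mul_le_mul_left b1 (by omega)
      omega
    · refine str n t r l M hr le_rfl F G h T hT ?_ (by omega)
      have e : G.filter (fun B => T ⊆ B ∧ B.card = t + r) = lv t G r := by
        ext B
        rw [mem_filter, lv_mem]
        constructor
        · rintro ⟨c1, c2, c3⟩
          exact ⟨c1, c3⟩
        · rintro ⟨c1, c2⟩
          exact ⟨c1, hTG B (lv_mem.mpr ⟨c1, c2⟩), c2⟩
      rw [e]
      exact hgr
  have k1 := last F G h szG hfr hgr
  have k2 := last G F h' szF hgr hfr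
  have k3 := Nat.mul_le_mul k1 k2
  rw [← pow_two] at k3
  omega

theorem fixed0 (n t : ℕ) (F G : Finset (Finset (Fin n)))
    (h : ∀ A ∈ F, ∀ B ∈ G, t ≤ (A ∩ B).card ∧ (A ∪ B).card ≤ t) : F.card * G.card ≤ 1 := by
  classical
  rcases F.eq_empty_or_nonempty with e1 | ⟨A0, hA0⟩
  · rw [e1]; simp
  rcases G.eq_empty_or_nonempty with e2 | ⟨B0, hB0⟩
  · rw [e2]; simp
  have key : ∀ A ∈ F, ∀ B ∈ G, A = B := by
    intro A hA B hB
    obtain ⟨h1, h2⟩ := h A hA B hB
    have e : A ∩ B = A ∪ B := eq_of_subset_of_card_le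
      (inter_subset_left.trans subset_union_left) (h2.trans h1)
    have e1 : A ⊆ B := by
      have := subset_union_left (s₁ := A) (s₂ := B)
      rw [← e] at this
      exact this.trans inter_subset_right
    have e2 : B ⊆ A := by
      have := subset_union_right (s₁ := A) (s₂ := B)
      rw [← e] at this
      exact this.trans inter_subset_left
    exact e1.antisymm e2
  have k1 : F.card ≤ 1 := card_le_one.mpr fun A hA A' hA' => (key A hA B0 hB0).trans (key A' hA' B0 hB0).symm
  have k2 : G.card ≤ 1 := card_le_one.mpr fun B hB B' hB' => (key A0 hA0 B hB).symm.trans (key A0 hA0 B' hB')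
  calc F.card * G.card ≤ 1 * 1 := Nat.mul_le_mul k1 k2
    _ = 1 := rfl

theorem fixedAll (t r : ℕ) : ∃ n0 : ℕ, ∀ n : ℕ, n0 ≤ n → ∀ F G : Finset (Finset (Fin n)),
    (∀ A ∈ F, ∀ B ∈ G, t ≤ (A ∩ B).card ∧ (A ∪ B).card ≤ t + 2 * r) →
    F.card * G.card ≤ (∑ i ∈ range (r + 1), (n - t).choose i) ^ 2 := by
  rcases Nat.eq_zero_or_pos r with hr | hr
  · subst hr
    refine ⟨0, fun n _ F G h => ?_⟩
    have := fixed0 n t F G h
    simpa using this
  · exact fixed t r hr

/-- `m(n,t,s)` and the product bound for `s` large -/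
theorem half (t r : ℕ) : ∃ N : ℕ, ∀ s : ℕ, N ≤ s →
    mTS (t + s + 2 * r) t s = ∑ i ∈ range (r + 1), (s + 2 * r).choose i ∧
    ∀ F G : Finset (Finset (Fin (t + s + 2 * r))), CrossTS (t + s + 2 * r) t s F G →
      F.card * G.card ≤ mTS (t + s + 2 * r) t s ^ 2 := by
  obtain ⟨n0, h0⟩ := fixedAll t r
  refine ⟨n0, fun s hs => ?_⟩
  have hn : n0 ≤ t + s + 2 * r := by omega
  have hb : ∀ F G : Finset (Finset (Fin (t + s + 2 * r))), CrossTS (t + s + 2 * r) t s F G →
      F.card * G.card ≤ (∑ i ∈ range (r + 1), (s + 2 * r).choose i) ^ 2 := by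
    intro F G hFG
    have := h0 _ hn F G (fun A hA B hB => ⟨(hFG A hA B hB).1, by have := (hFG A hA B hB).2; omega⟩)
    rwa [show t + s + 2 * r - t = s + 2 * r by omega] at this
  have hm : mTS (t + s + 2 * r) t s = ∑ i ∈ range (r + 1), (s + 2 * r).choose i := by
    refine le_antisymm ?_ ?_
    · obtain ⟨F, hF, hc⟩ := mTS_attained (t + s + 2 * r) t s
      have := hb F F hF
      rw [← pow_two, hc] at this
      exact (Nat.pow_le_pow_iff_left (by norm_num)).mp this
    · obtain ⟨F, hc, hF⟩ := low (t + s + 2 * r) t r (by omega)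
      rw [show t + s + 2 * r - t = s + 2 * r by omega] at hc
      rw [← hc]
      exact le_mTS F fun A hA B hB => ⟨(hF A hA B hB).1, by have := (hF A hA B hB).2; omega⟩
  exact ⟨hm, fun F G hFG => by rw [hm]; exact hb F G hFG⟩

theorem mTS_symm_le (n t s : ℕ) : mTS n t s ≤ mTS n s t := by
  classical
  obtain ⟨F, hF, hc⟩ := mTS_attained n t s
  rw [← hc, ← card_image_of_injective F compl_injective]
  exact le_mTS _ (cross_compl n t s F F hF)

theorem mTS_symm (n t s : ℕ) : mTS n t s = mTS n s t :=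
  le_antisymm (mTS_symm_le n t s) (mTS_symm_le n s t)

/-- Even gaps: for every `c` and `r`, all but finitely many pairs `(t, s)` with `min t s = c` satisfy the product bound at
`n = t + s + 2 r`. -/
theorem final (c r : ℕ) : ∃ N : ℕ, ∀ t s : ℕ, min t s = c → N ≤ max t s →
    mTS (t + s + 2 * r) t s = ∑ i ∈ range (r + 1), (max t s + 2 * r).choose i ∧
    ∀ F G : Finset (Finset (Fin (t + s + 2 * r))), CrossTS (t + s + 2 * r) t s F G →
      F.card * G.card ≤ mTS (t + s + 2 * r) t s ^ 2 := by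
  classical
  obtain ⟨N, hN⟩ := half c r
  refine ⟨N, fun t s hc hm => ?_⟩
  rcases le_total t s with hts | hts
  · rw [min_eq_left hts] at hc
    rw [max_eq_right hts] at hm ⊢
    subst hc
    exact hN s hm
  · rw [min_eq_right hts] at hc
    rw [max_eq_left hts] at hm ⊢
    subst hc
    obtain ⟨h1, h2⟩ := hN t hm
    rw [show s + t + 2 * r = t + s + 2 * r by ring] at h1 h2
    rw [mTS_symm]
    refine ⟨h1, fun F G hFG => ?_⟩
    have := h2 _ _ (cross_compl _ t s F G hFG)
    rwa [card_image_of_injective F compl_injective, card_image_of_injective G compl_injective] at this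

end Pool.Agent.H5.EG
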